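import Mathlib

namespace Pool.Agent.Results.MP_5b3c48_co.NotUnique

open SimpleGraph Finset

/-- The edge blow-up `H^3`: every edge gets its own new vertex adjacent to both ends. -/
def blowup {V : Type} (H : SimpleGraph V) : SimpleGraph (V ⊕ H.edgeSet) where
  Adj
    | .inl a, .inl b => H.Adj a b
    | .inl a, .inr e => a ∈ e.1
    | .inr e, .inl a => a ∈ e.1
    | .inr _, .inr _ => False
  symm := ⟨by rintro (a | a) (b | b) h <;> first | exact h.symm | exact h⟩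
  loopless := ⟨by rintro (a | a) h <;> first | exact h.ne rfl | exact h⟩

/-- `K_1 + K_{a, n-1-a}` with apex `0`, parts `1..a` and `a+1..n-1`, plus the edge `12`. -/
def cone (n a : ℕ) : SimpleGraph (Fin n) where
  Adj x y := x.val ≠ y.val ∧ (x.val = 0 ∨ y.val = 0 ∨ (x.val ≤ a ∧ a < y.val) ∨
    (y.val ≤ a ∧ a < x.val) ∨ (x.val = 1 ∧ y.val = 2) ∨ (x.val = 2 ∧ y.val = 1))
  symm := ⟨fun _ _ h => by omega⟩
  loopless := ⟨fun _ h => h.1 rfl⟩

/-- `H` is the unique extremal graph for `ex(n, K_3, F)`. -/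
def UniqueExtremal {W : Type} {n : ℕ} (F : SimpleGraph W) (H : SimpleGraph (Fin n)) : Prop :=
  ¬ F ⊑ H ∧ ∀ G : SimpleGraph (Fin n), ¬ F ⊑ G →
    (G.cliqueSet 3).ncard ≤ (H.cliqueSet 3).ncard ∧
      ((G.cliqueSet 3).ncard = (H.cliqueSet 3).ncard → Nonempty (G ≃g H))

instance (n a : ℕ) : DecidableRel (cone n a).Adj := fun x y => by
  unfold cone; infer_instance

lemma adj_iff {n a : ℕ} (x y : Fin n) : (cone n a).Adj x y ↔ x.val ≠ y.val ∧
    (x.val = 0 ∨ y.val = 0 ∨ (x.val ≤ a ∧ a < y.val) ∨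
    (y.val ≤ a ∧ a < x.val) ∨ (x.val = 1 ∧ y.val = 2) ∨ (x.val = 2 ∧ y.val = 1)) := Iff.rfl

lemma sort3 {n : ℕ} (G : SimpleGraph (Fin n)) {S : Finset (Fin n)} (h : G.IsNClique 3 S) :
    ∃ x y z, x < y ∧ y < z ∧ G.Adj x y ∧ G.Adj x z ∧ G.Adj y z ∧ S = {x, y, z} := by
  obtain ⟨a, b, c, h1, h2, h3, rfl⟩ := is3Clique_iff.1 h
  rcases lt_or_gt_of_ne h1.ne with p | p <;> rcases lt_or_gt_of_ne h2.ne with q | q <;>
    rcases lt_or_gt_of_ne h3.ne with r | r
  · exact ⟨a, b, c, p, r, h1, h2, h3, rfl⟩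
  · exact ⟨a, c, b, q, r, h2, h1, h3.symm, by ext; simp; tauto⟩
  · omega
  · exact ⟨c, a, b, q, p, h2.symm, h3.symm, h1, by ext; simp; tauto⟩
  · exact ⟨b, a, c, p, q, h1.symm, h3, h2, by ext; simp; tauto⟩
  · omega
  · exact ⟨b, c, a, r, q, h3, h1.symm, h2.symm, by ext; simp; tauto⟩
  · exact ⟨c, b, a, r, p, h3.symm, h2.symm, h1.symm, by ext; simp; tauto⟩

lemma tri (n a : ℕ) (ha : 2 ≤ a) (hn : a < n) (h3 : 3 ≤ n) :
    ((cone n a).cliqueSet 3).ncard = a * (n - a - 1) + (n - a - 1) + 1 := by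
  have : NeZero n := ⟨by omega⟩
  let T : Finset (ℕ × ℕ × ℕ) := (({0} ×ˢ Icc 1 a ×ˢ Ioo a n) ∪ ({1} ×ˢ {2} ×ˢ Ioo a n)) ∪
    {(0, 1, 2)}
  have hT : T.card = a * (n - a - 1) + (n - a - 1) + 1 := by
    rw [card_union_of_disjoint, card_union_of_disjoint]
    · simp
    · rw [Finset.disjoint_left]; rintro ⟨x, y, z⟩; simp; omega
    · rw [Finset.disjoint_right]; simp; omega
  have mT : ∀ x y z, (x, y, z) ∈ T ↔ (x = 0 ∧ 1 ≤ y ∧ y ≤ a ∧ a < z ∧ z < n) ∨
      (x = 1 ∧ y = 2 ∧ a < z ∧ z < n) ∨ (x = 0 ∧ y = 1 ∧ z = 2) := by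
    intro x y z
    simp only [T, mem_union, mem_product, mem_singleton, mem_Icc, mem_Ioo, Prod.mk.injEq]
    omega
  rw [← coe_cliqueFinset, Set.ncard_coe_finset, ← hT]
  symm
  apply card_bij (fun t _ => ({Fin.ofNat n t.1, Fin.ofNat n t.2.1, Fin.ofNat n t.2.2} : Finset _))
  · rintro ⟨x, y, z⟩ h
    rw [mT] at h
    rw [mem_cliqueFinset_iff, is3Clique_triple_iff]
    simp only [adj_iff, Fin.val_ofNat]
    rw [Nat.mod_eq_of_lt (show x < n by omega), Nat.mod_eq_of_lt (show y < n by omega),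
      Nat.mod_eq_of_lt (show z < n by omega)]
    omega
  · rintro ⟨x, y, z⟩ h ⟨x', y', z'⟩ h' e
    rw [mT] at h h'
    have key : ∀ v : Fin n, (v.val = x ∨ v.val = y ∨ v.val = z) ↔
        (v.val = x' ∨ v.val = y' ∨ v.val = z') := by
      intro v
      have := Finset.ext_iff.1 e v
      simp only [mem_insert, mem_singleton, Fin.ext_iff, Fin.val_ofNat] at this
      rwa [Nat.mod_eq_of_lt (show x < n by omega), Nat.mod_eq_of_lt (show y < n by omega),
        Nat.mod_eq_of_lt (show z < n by omega), Nat.mod_eq_of_lt (show x' < n by omega),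
        Nat.mod_eq_of_lt (show y' < n by omega), Nat.mod_eq_of_lt (show z' < n by omega)] at this
    have k1 := (key ⟨x, by omega⟩).1 (Or.inl rfl)
    have k2 := (key ⟨y, by omega⟩).1 (Or.inr (Or.inl rfl))
    have k3 := (key ⟨z, by omega⟩).1 (Or.inr (Or.inr rfl))
    simp only at k1 k2 k3
    simp only [Prod.mk.injEq]
    omega
  · intro S hS
    obtain ⟨x, y, z, p, q, h1, h2, h3, rfl⟩ := sort3 _ (mem_cliqueFinset_iff.1 hS)
    refine ⟨(x.val, y.val, z.val), ?_, by simp⟩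
    rw [mT]
    rw [adj_iff] at h1 h2 h3
    have := z.isLt
    omega

lemma typ {n a : ℕ} {x y z : Fin n} (h1 : (cone n a).Adj x y) (h2 : (cone n a).Adj x z)
    (h3 : (cone n a).Adj y z) : (x.val = 0 ∨ y.val = 0 ∨ z.val = 0) ∨
      ((x.val = 1 ∨ y.val = 1 ∨ z.val = 1) ∧ (x.val = 2 ∨ y.val = 2 ∨ z.val = 2)) := by
  rw [adj_iff] at h1 h2 h3
  omega

lemma zz {α : Type} {g : α → ℕ} (hg : Function.Injective g) {a b c a' b' c' : α}
    (h : g a = 0 ∨ g b = 0 ∨ g c = 0) (h' : g a' = 0 ∨ g b' = 0 ∨ g c' = 0)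
    (hd : ∀ x ∈ [a, b, c], x ∉ [a', b', c']) : False := by
  have e : ∃ x ∈ [a, b, c], g x = 0 := by simpa using h
  have e' : ∃ x ∈ [a', b', c'], g x = 0 := by simpa using h'
  obtain ⟨x, h1, h2⟩ := e
  obtain ⟨y, h3, h4⟩ := e'
  exact hd x h1 (hg (h2.trans h4.symm) ▸ h3)

lemma ee {α : Type} {g : α → ℕ} (hg : Function.Injective g) {a b c a' b' c' : α}
    (h : (g a = 1 ∨ g b = 1 ∨ g c = 1) ∧ (g a = 2 ∨ g b = 2 ∨ g c = 2))
    (h' : (g a' = 1 ∨ g b' = 1 ∨ g c' = 1) ∧ (g a' = 2 ∨ g b' = 2 ∨ g c' = 2)) (p : α)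
    (hd : ∀ x ∈ [a, b, c], x ∈ [a', b', c'] → x = p) : False := by
  have e1 : ∃ x ∈ [a, b, c], g x = 1 := by simpa using h.1
  have e2 : ∃ x ∈ [a, b, c], g x = 2 := by simpa using h.2
  have e3 : ∃ x ∈ [a', b', c'], g x = 1 := by simpa using h'.1
  have e4 : ∃ x ∈ [a', b', c'], g x = 2 := by simpa using h'.2
  obtain ⟨x, h1, h2⟩ := e1
  obtain ⟨y, h3, h4⟩ := e2
  obtain ⟨z, h5, h6⟩ := e3
  obtain ⟨w, h7, h8⟩ := e4
  have p1 := hd x h1 (hg (h2.trans h6.symm) ▸ h5)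
  have p2 := hd y h3 (hg (h4.trans h8.symm) ▸ h7)
  rw [p1] at h2
  rw [p2] at h4
  omega

lemma free (n a : ℕ) : ¬ blowup (pathGraph 5) ⊑ cone n a := by
  rintro ⟨φ⟩
  have e0 : (pathGraph 5).Adj 0 1 := by simp [pathGraph_adj]
  have e1 : (pathGraph 5).Adj 1 2 := by simp [pathGraph_adj]
  have e2 : (pathGraph 5).Adj 2 3 := by simp [pathGraph_adj]
  have e3 : (pathGraph 5).Adj 3 4 := by simp [pathGraph_adj]
  have t : ∀ {i j : Fin 5} (e : (pathGraph 5).Adj i j), _ := fun {i j} e =>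
    typ (φ.toHom.map_adj (v := .inl i) (w := .inl j) e)
      (φ.toHom.map_adj (v := .inl i) (w := .inr ⟨s(i, j), e⟩) (Sym2.mem_mk_left i j))
      (φ.toHom.map_adj (v := .inl j) (w := .inr ⟨s(i, j), e⟩) (Sym2.mem_mk_right i j))
  have hg : Function.Injective (fun v => (φ.toHom v).val) :=
    fun u v h => φ.injective (Fin.ext h)
  rcases t e0 with t0 | t0
  · rcases t e2 with t2 | t2
    · exact zz hg t0 t2 (by simp)
    · rcases t e3 with t3 | t3
      · exact zz hg t0 t3 (by simp)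
      · exact ee hg t2 t3 (.inl 3) (by simp)
  · rcases t e1 with t1 | t1
    · rcases t e3 with t3 | t3
      · exact zz hg t1 t3 (by simp)
      · exact ee hg t0 t3 (.inl 3) (by simp)
    · exact ee hg t0 t1 (.inl 1) (by simp)

theorem result : ∀ N : ℕ, ∃ n : ℕ, N ≤ n ∧ Odd n ∧
    ¬ UniqueExtremal (blowup (pathGraph 5)) (cone n ((n - 1) / 2)) := by
  intro N
  refine ⟨2 * (N + 4) + 1, by omega, ⟨_, rfl⟩, ?_⟩
  rintro ⟨-, h⟩
  have e : (2 * (N + 4) + 1 - 1) / 2 = N + 4 := by omega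
  rw [e] at h
  obtain ⟨φ⟩ := (h (cone _ (N + 3)) (free _ _)).2 (by
    rw [tri _ _ (by omega) (by omega) (by omega), tri _ _ (by omega) (by omega) (by omega)]
    have a1 : 2 * (N + 4) + 1 - (N + 3) - 1 = N + 5 := by omega
    have a2 : 2 * (N + 4) + 1 - (N + 4) - 1 = N + 4 := by omega
    rw [a1, a2]; ring)
  let v : Fin (2 * (N + 4) + 1) := ⟨2 * (N + 4), by omega⟩
  have d1 : (cone _ (N + 3)).degree v ≤ (range (N + 4)).card := by
    rw [← card_neighborFinset_eq_degree]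
    apply card_le_card_of_injOn Fin.val _ Fin.val_injective.injOn
    intro x hx
    simp only [coe_neighborFinset, mem_neighborSet, adj_iff, v, coe_range, Set.mem_Iio] at hx ⊢
    omega
  have d2 : ∀ w, N + 5 ≤ (cone (2 * (N + 4) + 1) (N + 4)).degree w := by
    intro w
    have hw := w.isLt
    rw [← card_neighborFinset_eq_degree, ← card_image_of_injective _ Fin.val_injective]
    by_cases c : w.val ≤ N + 4
    · by_cases c0 : w.val = 0
      · refine le_trans (by simp) (card_le_card (s := Icc 1 (N + 5)) ?_)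
        intro i hi
        rw [mem_Icc] at hi
        refine mem_image.2 ⟨⟨i, by omega⟩, ?_, rfl⟩
        simp only [mem_neighborFinset, adj_iff]; omega
      · refine le_trans ?_ (card_le_card (s := insert 0 (Icc (N + 5) (2 * (N + 4)))) ?_)
        · rw [card_insert_of_notMem (by simp), Nat.card_Icc]; omega
        · intro i hi
          rw [mem_insert, mem_Icc] at hi
          refine mem_image.2 ⟨⟨i, by omega⟩, ?_, rfl⟩
          simp only [mem_neighborFinset, adj_iff]; omega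
    · refine le_trans (by simp) (card_le_card (s := range (N + 5)) ?_)
      intro i hi
      rw [mem_range] at hi
      refine mem_image.2 ⟨⟨i, by omega⟩, ?_, rfl⟩
      simp only [mem_neighborFinset, adj_iff]; omega
  have := d2 (φ v)
  rw [φ.degree_eq, card_range] at *
  omega

end Pool.Agent.Results.MP_5b3c48_co.NotUnique
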